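import Pool.Agent.Run7.h457.DB.Port

/-!
# Hassett's equivalence for the very general member of infinitely many divisors; rational implies (**')

`HasK3 X`: there are a polarised K3 surface `(S, H)` and a primitive isometric embedding of Hodge structures
`H²(S, ℤ)_pr → H⁴(X, ℤ)_pr` (up to twist and sign). `HasTw X`: `X` has an associated twisted K3 surface, that is
`X` lies in `C_d` for some `d` such that all primes `p ≡ 2` modulo `3` have an even exponent in `d / 2`
(condition (**') of Huybrechts).

1. If `X` is rational and `End T(X) = ℚ` then `X` has an associated twisted K3 surface.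
2. If `X` is rational then `T(X)(1) ≅ T(S)` as rational Hodge structures for a minimal surface `S` with nef
canonical bundle, `p_g = 1` and `ρ(S) + K_S² + 1 ≤ rk A(X)`; if `rk A(X) = 2` then `S` is a K3 surface of Picard
number one.
3. Hassett's equivalence holds (both sides are false) for the very general cubic fourfold and for the very
general member of `C_d`, for all `d` which violate (**'): `d = 12, 20, 30, 36, 44, 48, 60, ...`.

The theorems on Hodge atoms (Katzarkov, Kontsevich, Pantev, Yu), weak factorization, surfaces and lattices
are the hypotheses `KnownCubic` and `FormFacts2`, the known facts on the condition of this page are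
`AssocFacts` and `htw`; they are published theorems, not proved in Lean. The deduction and the quadratic
forms are proved in Lean. This is the version for this page of MP_6fa476_ag.IrrationalDivisors.
-/

set_option autoImplicit false

namespace Pool.Agent.Results.MP_ffd2c1_ag.HassettDivisors

open Run7.H457.DB

theorem result (W : World) (C : Cub W) (K : KnownCubic C) (F : Forms W) (KF : FormFacts2 C F)
    (HasK3 HasTw : W.V → Prop) (A : AssocFacts C HasK3)
    (htw : ∀ X, C.IsCubic X → Isotropic F X → HasTw X) (X : W.V) (hX : C.IsCubic X) :
    (Rational W X → C.EndQ (C.T X) → HasTw X ∧ Isotropic F X) ∧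
    (Rational W X → ∃ S, IsMin C S ∧ C.T X = C.T S ∧ C.rho S + C.K2 S + 1 ≤ C.rA X ∧
      1 ≤ C.rho S) ∧
    (Rational W X → C.rA X = 2 → ∃ S, C.IsK3 S ∧ C.rho S = 1 ∧ C.T X = C.T S) ∧
    (C.rA X ≤ 1 ∨ (C.rA X = 2 ∧ C.EndQ (C.T X) ∧ Viol (C.disc X)) →
      ¬ Rational W X ∧ ¬ HasK3 X ∧ (Rational W X ↔ HasK3 X)) := by
  refine ⟨fun hr hE => ?_, fun hr => rational_cubic K hX hr, fun hr h2 => rank_two K hX hr h2,
    fun h => ?_⟩
  · have h := rational_isotropic K F KF hX hr hE
    exact ⟨htw X hX h, h⟩
  · obtain ⟨h1, h2⟩ := both_false K A hX h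
    exact ⟨h1, h2, ⟨fun h => absurd h h1, fun h => absurd h h2⟩⟩

end Pool.Agent.Results.MP_ffd2c1_ag.HassettDivisors
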