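import Pool.Agent.Run7.h971.SC.Many

/-!
# Cubic fourfolds with many cubic scrolls

Let `X` be a smooth cubic fourfold. A scroll class is a Hodge class `t` in `H^4(X, ℤ)` with `t.h = 0` and
`t.t = 4`; these are the classes `T - h` where `T` is a Hodge class with the invariants `T.h = 3`,
`T.T = 7` of a cubic scroll. They come in pairs `t`, `-t`. The following is proved.

1. If there are at least `127` pairs of scroll classes, then `X` is rational and has an associated K3
   surface (so both sides of the conjecture hold for `X`), and the variety of lines is birational to
   the Hilbert square of a K3 surface.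
2. The same holds if there are at least `28` pairs and two scroll classes with an odd product.
3. If there are at least `28` pairs, and if every Hodge class has an odd multiple in the group `N(24)`
   generated by the Hodge classes `v` of discriminant `3 v.v - (h.v) ^ 2 ≤ 24`, then `X` has an associated K3 surface if
   and only if `X` is as in 1., so that one direction of the conjecture holds for these `X`.
   If there are `28` pairs and `X` is not as in 1., then all discriminants of classes in `N(24)` are
   divisible by `4`.

There is no assumption on the rank or on the discriminant of the group of Hodge classes. The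
numbers are the natural ones: the `28` in 2. excludes the lattice `E₆*(3)` with `27` pairs, and `126` is
the number of positive roots of `E₈ + A₃`, the largest number for a simply laced root system of
rank at most eleven.

No rationality theorem is a hypothesis. What is proved about the rationality is `KnownLocus`: `X` is
in one of the divisors `C_14`, `C_26`, `C_38`, `C_42`, or there are a plane `P` and a Hodge class `T` such
that `T.(h - P)` is odd. All these fourfolds are rational by published theorems (Bolognesi, Russo,
Staglianò for `C_14`; Russo, Staglianò for `C_26`, `C_38`, `C_42`; Hassett for the planes); this last step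
is the last statement of the theorem. The hypothesis `IsLattice` describes the lattice
`H^4(X, ℤ)` with the Hodge classes (unimodularity, positivity, the discriminants `2` and `6` do not
occur, Voisin's description of the classes of planes). The conclusion `HasK3` is Hassett's
criterion for the existence of a polarised K3 surface `(S, H)` with a primitive isometric embedding
of `H^2(S, ℤ)_pr` in `H^4(X, ℤ)_pr`; Addington's theorem is used in the definition `HilbertSquare`.

Idea of the proof. Suppose that the conclusion does not hold. Then no Hodge class has one of the
discriminants `14`, `26`, `38`, `42`, and there are no twelve linearly independent scroll classes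
(`TwelveIndependentClasses`), so the scroll classes span a space of dimension at most eleven.

Odd products: if some product of scroll classes is odd, then there is a scroll class `a` such that
`s.t` is congruent to `(s.a) (t.a)` modulo `3`. After changing signs all products of different scroll
classes are `1` or `-2`. If there is a product `-2`, fix scroll classes `s`, `s'`, `s''` with the sum `0`; every
other class has the product `-2` with exactly one of them. The projections of the classes of one
kind to the orthogonal complement are orthogonal or opposite, those of different kinds have the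
angles `60` or `120` degrees. By Bessel's inequality there are at most `8` of each kind if two kinds
occur, and at most `18` if only one kind occurs. So there are at most `27` pairs.

Even products: the scroll classes are the roots of a root system `R` (scaled by two). For a root `r`
let `S r` be the set of the roots with product two with `r`. The argument of Lemmens and Seidel for
equiangular lines with the angle `arccos (1 / 3)` shows that `S r` has at most `56` elements, and at most
`36` if it does not span a space of dimension `8`. If it does, then all other roots are orthogonal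
to this space. The trace of the operator `v ↦ ∑ (x.v) x` (sum over the roots `x`) gives
`4 |R| = ∑ (8 + 2 |S b|)`, the sum over a basis of roots `b`, and it follows that
`|R| ≤ max (11 * 20, 8 * 30 + 3 * 4) = 252`.
-/

set_option autoImplicit false

namespace Pool.Agent.Results.MP_ffd2c1_ag.ManyScrolls

open Pool.Agent.Y95.Q

/-- `X` is in the Hassett divisor `C_d`: there is a Hodge class `v` such that `h` and `v` span a
saturated group of discriminant `d`. -/
def InDivisor {X : CubicFourfold} (H : H4 X) (d : ℤ) : Prop :=
  ∃ v, H.IsHodge v ∧ H.Saturated v ∧ H.disc v = d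

/-- `X` is in `C_14`, `C_26`, `C_38` or `C_42`, or there are a plane `P` in `X` and a Hodge class `T` such that
`T.(h - P)` is odd. -/
def KnownLocus {X : CubicFourfold} (H : H4 X) : Prop :=
  (∃ d : ℤ, (d = 14 ∨ d = 26 ∨ d = 38 ∨ d = 42) ∧ InDivisor H d) ∨
    ∃ (P : X.Plane) (T : Fin 23 → ℤ), H.IsHodge T ∧ Odd (H.ip T (H.h - H.cl P))

/-- The published rationality theorems for `X`: Bolognesi, Russo, Staglianò for `C_14`; Russo,
Staglianò for `C_26`, `C_38`, `C_42`; Hassett for a plane `P` and a class `T` with `T.(h - P)` odd. -/
def RationalityTheorems {X : CubicFourfold} (H : H4 X) : Prop := KnownLocus H → X.IsRational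

/-- `X` is in a Hassett divisor `C_d`, where `d = (2 n ^ 2 + 2 n + 2) / a ^ 2` with integers `a` and `n`.
By a theorem of Addington this means that the variety of lines `F(X)` is birational to the Hilbert
square `S^[2]` of some K3 surface `S`. -/
def HilbertSquare {X : CubicFourfold} (H : H4 X) : Prop :=
  ∃ d, (∃ a n : ℤ, a ^ 2 * d = 2 * n ^ 2 + 2 * n + 2) ∧ InDivisor H d

/-- `X` is in the known rational locus, has an associated K3 surface, and `F(X)` is birational to
`S^[2]` for a K3 surface `S`. -/
def Conclusion {X : CubicFourfold} (H : H4 X) : Prop := KnownLocus H ∧ H.HasK3 ∧ HilbertSquare H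

/-- The scroll classes: `T - h`, where `T` is a Hodge class with `T.h = 3` and `T.T = 7`. -/
def scrolls {X : CubicFourfold} (H : H4 X) : Set (Fin 23 → ℤ) :=
  {t | H.IsHodge t ∧ H.ip t H.h = 0 ∧ H.ip t t = 4}

/-- There are `n` pairs `t`, `-t` of scroll classes. -/
def ScrollPairs {X : CubicFourfold} (H : H4 X) (n : ℕ) : Prop :=
  ∃ t : Fin n → Fin 23 → ℤ, (∀ i, t i ∈ scrolls H) ∧ ∀ i j, i ≠ j → t i ≠ t j ∧ t i ≠ -t j

/-- The group generated by the Hodge classes of discriminant at most `24`. -/
def SmallGroup {X : CubicFourfold} (H : H4 X) : AddSubgroup (Fin 23 → ℤ) :=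
  AddSubgroup.closure {v | H.IsHodge v ∧ H.disc v ≤ 24}

/-- **Cubic fourfolds with many scroll classes.** -/
theorem result {X : CubicFourfold} {H : H4 X} (hL : Pool.Agent.Run7.h971.SC.IsLattice H) :
    (ScrollPairs H 127 → Conclusion H) ∧
    (ScrollPairs H 28 → (∃ s ∈ scrolls H, ∃ t ∈ scrolls H, Odd (H.ip s t)) → Conclusion H) ∧
    (ScrollPairs H 28 → Conclusion H ∨ ∀ v ∈ SmallGroup H, 4 ∣ H.disc v) ∧
    (ScrollPairs H 28 → (∀ v, H.IsHodge v → ∃ m : ℤ, Odd m ∧ m • v ∈ SmallGroup H) →
      (H.HasK3 ↔ Conclusion H)) ∧
    (RationalityTheorems H → Conclusion H → X.IsRational) := by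
  by_cases hbad : Conclusion H
  · exact ⟨fun _ => hbad, fun _ _ => hbad, fun _ => Or.inl hbad,
      fun _ _ => ⟨fun _ => hbad, fun h => h.2.1⟩, fun hR h => hR h.1⟩
  obtain ⟨h28, h127⟩ := Pool.Agent.Run7.h971.SC.many_scrolls hL hbad
  have c : Pool.Agent.Run7.h971.SC.Ctx H := Pool.Agent.Run7.h971.SC.ctx_of hL hbad
  have h4 : ScrollPairs H 28 → ∀ v ∈ SmallGroup H, 4 ∣ H.disc v := by
    rintro ⟨t, ht⟩
    exact Pool.Agent.Run7.h971.SC.even_small24 hL hbad ht
  refine ⟨fun ⟨t, ht⟩ => (h127 t ht).elim, fun ⟨t, ht⟩ ⟨s, hs, f, hf, ho⟩ => ?_,
    fun h => Or.inr (h4 h), fun h hm => ⟨?_, fun h => h.2.1⟩, fun hR h => hR h.1⟩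
  · exfalso
    have := h28 t ht s f hs hf
    obtain ⟨k, hk⟩ := ho
    omega
  · rintro ⟨v, hv, -, hA⟩
    exfalso
    obtain ⟨m, ⟨k, hk⟩, hmv⟩ := hm v hv
    have e : H.disc (m • v) = m ^ 2 * H.disc v := by
      have := hL.disc_comb m 0 v
      rw [zero_smul, add_zero] at this
      exact this
    have h5 := h4 h _ hmv
    rw [e] at h5
    refine Pool.Agent.Run7.h971.SC.not_admissible (Or.inl ?_) hA
    have h6 : IsCoprime (4 : ℤ) (m ^ 2) := by
      have : IsCoprime (2 : ℤ) m := ⟨-k, 1, by rw [hk]; ring⟩
      have h7 : IsCoprime ((2 : ℤ) ^ 2) (m ^ 2) := this.pow
      norm_num at h7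
      exact h7
    exact h6.dvd_of_dvd_mul_left h5

end Pool.Agent.Results.MP_ffd2c1_ag.ManyScrolls
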