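import Pool.Agent.Run7.h971.SC.Small12

/-!
# Twelve independent Hodge classes of small discriminant

Let `X` be a smooth cubic fourfold. The discriminant of a Hodge class `v` in `H^4(X, ℤ)` is
`disc v = 3 v.v - (h.v) ^ 2`; the classes of planes have discriminant `8`. A scroll class is a Hodge class
`t` with `t.h = 0` and `t.t = 4` (discriminant `12`); these are the classes `T - h` where `T` is a Hodge
class with the invariants `T.h = 3`, `T.T = 7` of a cubic scroll. It is proved: let `t_1`, ..., `t_12` be
Hodge classes which are linearly independent together with `h`, and suppose that

* each `t_i` is the class of a plane in `X` or a scroll class, or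
* `X` contains a plane, the `t_i` have discriminant at most `31`, and the sum of the discriminants is
  less than `128`.

Then `X` is rational and has an associated K3 surface (so both sides of the conjecture hold for
`X`), and the variety of lines is birational to the Hilbert square of a K3 surface.
Nothing else is assumed about the Hodge classes of `X`.

It is known that `X` has an associated K3 surface if the rank of the group of Hodge classes is
large; the conjecture predicts that `X` is rational, and this is proved here under the
assumption that sufficiently many of the Hodge classes are small. The theorem on twelve planes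
which meet pairwise in one point (a starting file) is a special case.

No rationality theorem is a hypothesis. What is proved about the rationality is `KnownLocus`: `X` is
in one of the divisors `C_14`, `C_26`, `C_38`, `C_42`, or there are a plane `P` and a Hodge class `T` such
that `T.(h - P)` is odd. All these fourfolds are rational by published theorems (Bolognesi, Russo,
Staglianò for `C_14`; Russo, Staglianò for `C_26`, `C_38`, `C_42`; Hassett for the planes); this last step
is the last statement of the theorem. The hypothesis `IsLattice` describes the lattice
`H^4(X, ℤ)` with the Hodge classes (unimodularity, positivity, the discriminants `2` and `6` do not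
occur, Voisin's description of the classes of planes). The conclusion `HasK3` is Hassett's
criterion for the existence of a polarised K3 surface `(S, H)` with a primitive isometric embedding
of `H^2(S, ℤ)_pr` in `H^4(X, ℤ)_pr`; Addington's theorem is used in the definition `HilbertSquare`.

Idea of the proof. Suppose that the conclusion does not hold; then no Hodge class has one of the
discriminants `14`, `26`, `38`, `42`. Let `M` be the group of the Hodge classes in the rational span of
`h` and the twelve classes `t_i`, a primitive subgroup of rank `13`. Randomised rounding of the
coordinates shows that every class in `M` is congruent modulo the `t_i` to a class whose discriminant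
is at most a quarter of the sum of the `disc t_i`. The exclusion of the four discriminants restricts
the products of the classes of small discriminant (`SC.EvenType`, `SC.Type3`, `SC.Odd12`), and it follows
that the form on `M` has rank at most one modulo `2` or modulo `3`, so that `M / p M` has a subspace of
dimension `12` which is orthogonal to `M / p M`. As `H^4(X, ℤ)` is unimodular of rank `23` and `M` is
primitive of rank `13`, this is a contradiction.
-/

set_option autoImplicit false

namespace Pool.Agent.Results.MP_ffd2c1_ag.TwelveIndependentClasses

open Pool.Agent.Y95.Q

/-- `X` is in the Hassett divisor `C_d`: there is a Hodge class `v` such that `h` and `v` span a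
saturated group of discriminant `d`. -/
def InDivisor {X : CubicFourfold} (H : H4 X) (d : ℤ) : Prop :=
  ∃ v, H.IsHodge v ∧ H.Saturated v ∧ H.disc v = d

/-- `X` is in `C_14`, `C_26`, `C_38` or `C_42`, or there are a plane `P` in `X` and a Hodge class `T` such that
`T.(h - P)` is odd. -/
def KnownLocus {X : CubicFourfold} (H : H4 X) : Prop :=
  (∃ d : ℤ, (d = 14 ∨ d = 26 ∨ d = 38 ∨ d = 42) ∧ InDivisor H d) ∨
    ∃ (P : X.Plane) (T : Fin 23 → ℤ), H.IsHodge T ∧ Odd (H.ip T (H.h - H.cl P))

/-- The published rationality theorems for `X`: Bolognesi, Russo, Staglianò for `C_14`; Russo,
Staglianò for `C_26`, `C_38`, `C_42`; Hassett for a plane `P` and a class `T` with `T.(h - P)` odd. -/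
def RationalityTheorems {X : CubicFourfold} (H : H4 X) : Prop := KnownLocus H → X.IsRational

/-- `X` is in a Hassett divisor `C_d`, where `d = (2 n ^ 2 + 2 n + 2) / a ^ 2` with integers `a` and `n`.
By a theorem of Addington this means that the variety of lines `F(X)` is birational to the Hilbert
square `S^[2]` of some K3 surface `S`. -/
def HilbertSquare {X : CubicFourfold} (H : H4 X) : Prop :=
  ∃ d, (∃ a n : ℤ, a ^ 2 * d = 2 * n ^ 2 + 2 * n + 2) ∧ InDivisor H d

/-- The classes of planes, and the scroll classes: `T - h`, where `T` is a Hodge class with `T.h = 3` and
`T.T = 7`. -/
def planesOrScrolls {X : CubicFourfold} (H : H4 X) : Set (Fin 23 → ℤ) :=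
  Set.range H.cl ∪ {t | H.IsHodge t ∧ H.ip t H.h = 0 ∧ H.ip t t = 4}

/-- `X` contains a plane, and the `t_i` are Hodge classes of discriminant at most `31` such that the
sum of the discriminants is less than `128`. -/
def SmallWithPlane {X : CubicFourfold} (H : H4 X) (t : Fin 12 → Fin 23 → ℤ) : Prop :=
  Nonempty X.Plane ∧ (∀ i, H.IsHodge (t i) ∧ H.disc (t i) ≤ 31) ∧ ∑ i, H.disc (t i) < 128

/-- **Twelve independent classes of small discriminant.** The vectors `h`, `t_1`, ..., `t_12` are linearly
independent. -/
theorem result {X : CubicFourfold} {H : H4 X} (hL : Pool.Agent.Run7.h971.SC.IsLattice H)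
    {t : Fin 12 → Fin 23 → ℤ} (ht : (∀ i, t i ∈ planesOrScrolls H) ∨ SmallWithPlane H t)
    (hli : LinearIndependent ℤ (Fin.cons H.h t : Fin 13 → Fin 23 → ℤ)) :
    (KnownLocus H ∧ H.HasK3 ∧ HilbertSquare H) ∧ (RationalityTheorems H → X.IsRational) := by
  have main : KnownLocus H ∧ H.HasK3 ∧ HilbertSquare H := by
    by_contra hbad
    have c : Pool.Agent.Run7.h971.SC.Ctx H := Pool.Agent.Run7.h971.SC.ctx_of hL hbad
    rcases ht with ht | ⟨hP, ht, hs⟩
    · refine c.twelve (t := t) (fun i => ?_) hli
      rcases ht i with ⟨P, hP⟩ | h
      · exact Or.inl ((hL.cl_range _).1 ⟨P, hP⟩)
      · exact Or.inr h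
    · exact c.small_twelve hL hbad hP (fun i => (ht i).1) (fun i => (ht i).2) hs hli
  exact ⟨main, fun hR => hR main.1⟩

end Pool.Agent.Results.MP_ffd2c1_ag.TwelveIndependentClasses
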